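import Pool.Agent.Helper97.PD.Defs
import Pool.Agent.Helper97.LN.Fin
import Pool.Agent.Helper88.LN.Low
import Pool.Agent.Helper45.LN.CLO

/-!
# Project PD, block P10: the ratio
-/

set_option autoImplicit false

namespace Pool.Agent.PD

open Filter Topology NumberField IsDedekindDomain
open Pool.Agent.ML (HasMu)

/-- **Block P10** -/
theorem rat : StmtRat := by
  intro k _ _ ℓ hℓ _ P hP
  have h2 : 2 ≤ ℓ := hℓ.two_le
  refine ⟨Pool.Agent.LN.twists_finite ℓ h2, ?_⟩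
  obtain ⟨c₁, hc₁, hlow⟩ := Pool.Agent.LN.cls_lower Pool.Agent.LN.low Pool.Agent.LN.clo k ℓ h2
  rw [NormedAddGroup.tendsto_nhds_zero]
  intro ε hε
  have h3 := hP (ε * c₁ / 2) (by positivity)
  filter_upwards [h3, eventually_ge_atTop 3] with X hX hX3
  have hXR : (3:ℝ) ≤ X := by exact_mod_cast hX3
  have hlog : 0 < Real.log X := Real.log_pos (by linarith)
  obtain ⟨N, hN⟩ : ∃ N : ℝ, N = Nat.card (Pool.Agent.LN.clsP (k := k) ℓ (fun _ => True) X) := ⟨_, rfl⟩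
  obtain ⟨M, hM⟩ : ∃ M : ℝ, M = Nat.card (Pool.Agent.LN.clsP (k := k) ℓ P X) := ⟨_, rfl⟩
  have h4 := hlow X hX3
  have h5 := (Pool.Agent.LN.card_cls_le (by omega) P X _ hX).2
  rw [← hN] at h4 ⊢
  rw [← hM] at h5 ⊢
  obtain ⟨y, hy⟩ : ∃ y : ℝ, y = Real.log X ^ (((ℓ - 1 : ℕ) : ℝ) - 1) := ⟨_, rfl⟩
  have hy0 : 0 < y := by rw [hy]; positivity
  rw [← hy] at h4 h5
  have hN0 : 0 < N := lt_of_lt_of_le (by positivity) h4
  have hM0 : 0 ≤ M := by rw [hM]; positivity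
  rw [Real.norm_of_nonneg (by positivity), div_lt_iff₀ hN0]
  calc M ≤ ε * c₁ / 2 * (X * y) := h5
    _ = ε / 2 * (c₁ * X * y) := by ring
    _ ≤ ε / 2 * N := mul_le_mul_of_nonneg_left h4 (by positivity)
    _ < ε * N := by nlinarith

end Pool.Agent.PD
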